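import Pool.Agent.R684.PN.Stm

set_option autoImplicit false

/-! # A cocycle is determined on a commensurated subgroup -/

namespace Pool.Agent.R684.PN

open Pool.Agent.W649.ZL

theorem DD_append {G S : Type} [Group G] (τ : S → G) (L L' : List S) (f : G × S → ℂ) (x : G) :
    DD τ (L ++ L') f x = DD τ L f x + DD τ L' f ((L.map τ).prod⁻¹ * x) := by
  induction L generalizing x with
  | nil => simp [DD]
  | cons s L ih =>
    simp only [List.cons_append, DD, ih, List.map_cons, List.prod_cons, mul_inv_rev, mul_assoc]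
    ring

theorem DD_sum {G S : Type} [Group G] (τ : S → G) (L : List S) (f : EE G S) :
    Summable fun x => ‖DD τ L f x‖ ^ 2 := by
  induction L with
  | nil => simp [DD, summable_zero]
  | cons s L ih =>
    have h1 : Summable fun x : G => ‖f (x, s)‖ ^ 2 := by
      have h := (memlp_two_iff _).1 f.2
      exact h.comp_injective (i := fun x : G => (x, s)) (fun a b h => (Prod.mk.inj h).1)
    have h2 : Summable fun x : G => ‖DD τ L f ((τ s)⁻¹ * x)‖ ^ 2 :=
      ih.comp_injective (i := fun x : G => (τ s)⁻¹ * x) (mul_right_injective _)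
    refine Summable.of_nonneg_of_le (fun x => by positivity) (fun x => ?_)
      ((h1.add h2).mul_left 2)
    simp only [DD]
    have h3 := norm_add_le (f (x, s)) (DD τ L f ((τ s)⁻¹ * x))
    have h4 := norm_nonneg (f (x, s) + DD τ L f ((τ s)⁻¹ * x))
    nlinarith [sq_nonneg (‖f (x, s)‖ - ‖DD τ L f ((τ s)⁻¹ * x)‖)]

theorem vanish {G : Type} [Group G] (u : G → ℂ) (hu : Summable fun x => ‖u x‖ ^ 2) (m : G)
    (hm : ¬ IsOfFinOrder m) (x : G) (h : ∀ j : ℕ, u (m⁻¹ ^ j * x) = u x) : u x = 0 := by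
  have hinj : Function.Injective fun j : ℕ => m⁻¹ ^ j * x := by
    intro i j hij
    have h1 : m⁻¹ ^ i = m⁻¹ ^ j := mul_right_cancel hij
    have h2 : ¬ IsOfFinOrder m⁻¹ := fun h => hm (isOfFinOrder_inv_iff.1 h)
    exact (injective_pow_iff_not_isOfFinOrder.2 h2) h1
  have h1 : Summable fun _ : ℕ => ‖u x‖ ^ 2 := by
    have := hu.comp_injective hinj
    refine this.congr fun j => ?_
    simp only [Function.comp, h]
  have h2 := (summable_const_iff _).1 h1
  simpa using h2

/-- A cocycle is determined by the restrictions to `N` of its values at generators of `N`, `N`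
a commensurated subgroup. -/
theorem injc {Γ S J : Type} [Group Γ] (σ : S → Γ)
    (hσ : ∀ g : Γ, ∃ L : List S, (L.map σ).prod = g) (N : Subgroup Γ)
    (hN : ∀ g : Γ, (N.map (MulAut.conj g).toMonoidHom).relIndex N ≠ 0) (L : J → List S)
    (hL : Subgroup.closure (Set.range fun j => ((L j).map σ).prod) = N) (L₀ : List S)
    (h0 : (L₀.map σ).prod ∈ N) (h0' : ¬ IsOfFinOrder (L₀.map σ).prod) (f : EE Γ S)
    (hf : f ∈ UU σ (MonoidHom.id Γ) {L₀}) (hf0 : ∀ (n : N) (j : J), DD σ (L j) f (n : Γ) = 0) :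
    f = 0 := by
  choose W hW using hσ
  obtain ⟨hf1, hf2⟩ := (mem_UU _ _ _ _).1 hf
  have hf1' : ∀ L L' : List S, (L.map σ).prod = (L'.map σ).prod → ∀ x, DD σ L f x = DD σ L' f x := hf1
  have hf2' : ∀ x, DD σ L₀ f x = 0 := hf2 L₀ rfl
  obtain ⟨c, hc⟩ : ∃ c : Γ → Γ → ℂ, ∀ g x, c g x = DD σ (W g) f x := ⟨_, fun _ _ => rfl⟩
  have hcL : ∀ (L : List S) x, DD σ L f x = c (L.map σ).prod x := fun L x => by
    rw [hc]
    exact hf1' _ _ (hW _).symm x
  have hmul : ∀ g h x, c (g * h) x = c g x + c h (g⁻¹ * x) := by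
    intro g h x
    have h1 : ((W g ++ W h).map σ).prod = g * h := by
      rw [List.map_append, List.prod_append, hW, hW]
    rw [← h1, ← hcL, DD_append, hcL, hcL, hW, hW]
  have hsum : ∀ g, Summable fun x => ‖c g x‖ ^ 2 := fun g => by
    simp only [hc]
    exact DD_sum _ _ _
  have hone : ∀ x, c 1 x = 0 := fun x => by
    have := hmul 1 1 x
    simpa using this
  -- step 1
  have h1 : ∀ n ∈ N, ∀ n' ∈ N, c n n' = 0 := by
    intro n hn
    rw [← hL] at hn
    induction hn using Subgroup.closure_induction with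
    | mem x hx =>
      obtain ⟨j, rfl⟩ := hx
      intro n' hn'
      rw [← hcL]
      exact hf0 ⟨n', hn'⟩ j
    | one => exact fun n' _ => hone n'
    | mul x y hx _ ihx ihy =>
      intro n' hn'
      rw [hL] at hx
      rw [hmul, ihx n' hn', ihy _ (N.mul_mem (N.inv_mem hx) hn'), add_zero]
    | inv x hx ihx =>
      intro n' hn'
      rw [hL] at hx
      have h := hmul x⁻¹ x n'
      rw [inv_mul_cancel, hone, inv_inv, ihx _ (N.mul_mem hx hn'), add_zero] at h
      exact h.symm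
  obtain ⟨a, ha⟩ : ∃ a, a = (L₀.map σ).prod := ⟨_, rfl⟩
  rw [← ha] at h0 h0'
  have ca : ∀ x, c a x = 0 := fun x => by rw [ha, ← hcL]; exact hf2' x
  have cak : ∀ (k : ℕ) x, c (a ^ k) x = 0 := by
    intro k
    induction k with
    | zero => intro x; rw [pow_zero]; exact hone x
    | succ k ih => intro x; rw [pow_succ, hmul, ih, ca, add_zero]
  -- powers in conjugates
  have hpow : ∀ g : Γ, ∃ k : ℕ, 0 < k ∧ g⁻¹ * a ^ k * g ∈ N := by
    intro g
    obtain ⟨k, hk, -, hk2⟩ := Subgroup.exists_pow_mem_of_relIndex_ne_zero (hN g) h0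
    refine ⟨k, hk, ?_⟩
    obtain ⟨y, hy, hy'⟩ := (Subgroup.mem_inf.1 hk2).1
    have : g⁻¹ * a ^ k * g = y := by
      rw [← hy']
      simp [MulAut.conj_apply, mul_assoc]
    rw [this]
    exact hy
  have hfin : ∀ k : ℕ, 0 < k → ¬ IsOfFinOrder (a ^ k) := fun k hk h =>
    h0' ((isOfFinOrder_pow.1 h).resolve_right (by omega))
  have hconj : ∀ (g m : Γ) (j : ℕ), (m⁻¹ ^ j * g)⁻¹ * m * (m⁻¹ ^ j * g) = g⁻¹ * m * g := by
    intro g m j
    have : m * m⁻¹ ^ j = m⁻¹ ^ j * m := ((Commute.refl m).inv_right.pow_right j).eq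
    rw [mul_assoc _ m, ← mul_assoc m, this]
    group
  -- step 4 : c g vanishes on g N
  have h4 : ∀ g x, g⁻¹ * x ∈ N → c g x = 0 := by
    intro g x hx
    obtain ⟨k, hk, hkg⟩ := hpow g
    apply vanish (c g) (hsum g) (a ^ k) (hfin k hk) x
    intro j
    induction j with
    | zero => simp
    | succ j ih =>
      rw [← ih, pow_succ']
      obtain ⟨y, hy⟩ : ∃ y, y = (a ^ k)⁻¹ ^ j * x := ⟨_, rfl⟩
      rw [mul_assoc, ← hy]
      have hyN : g⁻¹ * y ∈ N := by
        have e : g⁻¹ * y = (g⁻¹ * a ^ k * g)⁻¹ ^ j * (g⁻¹ * x) := by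
          have e1 : (g⁻¹ * a ^ k * g)⁻¹ ^ j = g⁻¹ * (a ^ k)⁻¹ ^ j * g := by
            have := conj_pow (i := j) (a := g⁻¹) (b := (a ^ k)⁻¹)
            rw [inv_inv] at this
            rw [← this]
            group
          rw [e1, hy]
          group
        rw [e]
        exact N.mul_mem (N.pow_mem (N.inv_mem hkg) j) hx
      have e2 := hmul (a ^ k) g y
      have e3 := hmul g (g⁻¹ * a ^ k * g) y
      have e4 : g * (g⁻¹ * a ^ k * g) = a ^ k * g := by group
      rw [e4, e2, cak, zero_add, h1 _ hkg _ hyN, add_zero] at e3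
      exact e3
  -- step 5
  have h5 : ∀ g n x, n ∈ N → g⁻¹ * n * g ∈ N → g⁻¹ * x ∈ N → c n x = 0 := by
    intro g n x hn hng hx
    have e2 := hmul n g x
    have e3 := hmul g (g⁻¹ * n * g) x
    have e4 : g * (g⁻¹ * n * g) = n * g := by group
    rw [e4, e2, h1 _ hng _ hx, h4 g x hx, h4 g (n⁻¹ * x) ?_, add_zero, add_zero] at e3
    · exact e3
    · have : g⁻¹ * (n⁻¹ * x) = (g⁻¹ * n * g)⁻¹ * (g⁻¹ * x) := by group
      rw [this]
      exact N.mul_mem (N.inv_mem hng) hx
  -- step 6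
  have h6 : ∀ n ∈ N, ∀ x, c n x = 0 := by
    intro n hn x
    obtain ⟨k, hk, hkg⟩ := hpow x
    apply vanish (c n) (hsum n) (a ^ k) (hfin k hk) x
    intro j
    induction j with
    | zero => simp
    | succ j ih =>
      rw [← ih, pow_succ']
      obtain ⟨y, hy⟩ : ∃ y, y = (a ^ k)⁻¹ ^ j * x := ⟨_, rfl⟩
      rw [mul_assoc, ← hy]
      have hky : y⁻¹ * a ^ k * y ∈ N := by rw [hy, hconj]; exact hkg
      have hak : a ^ k ∈ N := N.pow_mem h0 k
      have e2 := hmul (a ^ k) n y
      have e3 := hmul n (n⁻¹ * a ^ k * n) y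
      have e4 : n * (n⁻¹ * a ^ k * n) = a ^ k * n := by group
      have e5 : c (n⁻¹ * a ^ k * n) (n⁻¹ * y) = 0 := by
        apply h5 (n⁻¹ * y)
        · exact N.mul_mem (N.mul_mem (N.inv_mem hn) hak) hn
        · have : (n⁻¹ * y)⁻¹ * (n⁻¹ * a ^ k * n) * (n⁻¹ * y) = y⁻¹ * a ^ k * y := by group
          rw [this]
          exact hky
        · rw [inv_mul_cancel]; exact N.one_mem
      rw [e4, e2, cak, zero_add, e5, add_zero] at e3
      exact e3
  -- step 7
  have h7 : ∀ g x, c g x = 0 := by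
    intro g x
    obtain ⟨k, hk, hkg⟩ := hpow g
    apply vanish (c g) (hsum g) (a ^ k) (hfin k hk) x
    intro j
    induction j with
    | zero => simp
    | succ j ih =>
      rw [← ih, pow_succ', mul_assoc]
      obtain ⟨y, hy⟩ : ∃ y, y = (a ^ k)⁻¹ ^ j * x := ⟨_, rfl⟩
      rw [← hy]
      have e2 := hmul (a ^ k) g y
      have e3 := hmul g (g⁻¹ * a ^ k * g) y
      have e4 : g * (g⁻¹ * a ^ k * g) = a ^ k * g := by group
      rw [e4, e2, cak, zero_add, h6 _ hkg, add_zero] at e3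
      exact e3
  ext ⟨x, s⟩
  have := hcL [s] x
  simp only [DD, add_zero, List.map_cons, List.map_nil, List.prod_cons, List.prod_nil,
    mul_one] at this
  rw [this, h7]
  rfl

end Pool.Agent.R684.PN
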