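import Pool.Agent.R684.PN.Injc

set_option autoImplicit false

/-! # Assembly -/

namespace Pool.Agent.R684.PN

open Pool.Agent.W649.ZL

theorem DD_tr {G S : Type} [Group G] (τ : S → G) (L : List S) (k : G) (f : EE G S) (x : G) :
    DD τ L (tr k f : EE G S) x = DD τ L f (x * k) := by
  induction L generalizing x with
  | nil => simp [DD]
  | cons s L ih =>
    simp only [DD, ih, mul_assoc]
    rfl

theorem not_fin {P X : Type} [Group P] (hRP : S_RP) (hs : SameLCQ P X) (hr : ResNil P) (n : P)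
    (hn : n ≠ 1) : ¬ IsOfFinOrder n := by
  classical
  intro h
  have hk : 0 < orderOf n := h.orderOf_pos
  obtain ⟨p, hp1, hp⟩ := Nat.exists_infinite_primes (orderOf n + 1)
  have : Fact p.Prime := ⟨hp⟩
  obtain ⟨G, _, _, q, hG, hq⟩ := hRP P X hs hr p {1, n}
  obtain ⟨j, hj⟩ := hG (q n)
  have h1 : (q n) ^ orderOf n = 1 := by rw [← map_pow, pow_orderOf_eq_one, map_one]
  have hc : Nat.Coprime (orderOf n) (p ^ j) := by
    apply Nat.Coprime.pow_right
    rw [Nat.coprime_comm, hp.coprime_iff_not_dvd]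
    intro hd
    have := Nat.le_of_dvd hk hd
    omega
  have h2 : q n = 1 := by
    have := pow_gcd_eq_one.2 ⟨h1, hj⟩
    rwa [hc, pow_one] at this
  exact hn (hq (by simp) (by simp) (by rw [h2, map_one]))

theorem conj_rel {P : Type} [Group P] (N Γ : Subgroup P) (hNΓ : N ≤ Γ)
    (hN : ∀ g : P, (N.map (MulAut.conj g).toMonoidHom).relIndex N ≠ 0) (γ : Γ) :
    ((N.subgroupOf Γ).map (MulAut.conj γ).toMonoidHom).relIndex (N.subgroupOf Γ) ≠ 0 := by
  have h : (N.subgroupOf Γ).map (MulAut.conj γ).toMonoidHom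
      = (N.map (MulAut.conj (γ : P)).toMonoidHom).subgroupOf Γ := by
    ext ⟨x, hx⟩
    rw [Subgroup.mem_subgroupOf]
    constructor
    · rintro ⟨⟨y, hy⟩, hy1, hy2⟩
      refine ⟨y, Subgroup.mem_subgroupOf.1 hy1, ?_⟩
      exact congrArg Subtype.val hy2
    · rintro ⟨y, hy1, hy2⟩
      exact ⟨⟨y, hNΓ hy1⟩, Subgroup.mem_subgroupOf.2 hy1, Subtype.ext hy2⟩
  rw [h, Subgroup.relIndex_subgroupOf hNΓ]
  exact hN γ

theorem t_MAIN (hRP : S_RP) (hPF : S_PF) (hDER : S_DER) (hCLO : S_CLO) (hOP : S_OP)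
    (hFIN : S_FIN) (hLIM : S_LIM) (hCMP : S_CMP) (hCYC : S_CYC) {P X : Type} [Group P]
    (hs : SameLCQ P X) (hr : ResNil P) (N : Subgroup P)
    (hNc : ∀ g : P, (N.map (MulAut.conj g).toMonoidHom).relIndex N ≠ 0) (hN : N ≠ ⊥)
    (hi : N.index = 0) : ¬ N.FG := by
  classical
  intro hfg
  rcases subsingleton_or_nontrivial X with hX | hX
  · exact hCYC P X hs hr hX N hN hi
  obtain ⟨b, hb⟩ := hPF P X hs
  obtain ⟨x₁, x₂, hx⟩ := exists_pair_ne X
  have hbx : b x₁ ≠ b x₂ := by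
    intro h
    obtain ⟨f, hf, -⟩ := hb (Multiplicative ℤ) (fun x => if x = x₁ then 1 else Multiplicative.ofAdd 1)
    have h1 := hf x₁
    have h2 := hf x₂
    rw [h] at h1
    rw [h1] at h2
    simp only [if_true] at h2
    rw [if_neg (Ne.symm hx)] at h2
    exact absurd (congrArg Multiplicative.toAdd h2) (by simp)
  obtain ⟨n₀, hn₀, hn₁⟩ := N.ne_bot_iff_exists_ne_one.1 hN |>.elim fun a ha =>
    (⟨a.1, a.2, fun h => ha (Subtype.ext h)⟩ : ∃ n₀, n₀ ∈ N ∧ n₀ ≠ 1)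
  have htf : ¬ IsOfFinOrder n₀ := not_fin hRP hs hr n₀ hn₁
  obtain ⟨K₀, hK₀⟩ := hfg
  have hinf : Infinite (P ⧸ N) := by
    rw [Subgroup.index_eq_zero_iff_infinite] at hi
    exact hi
  obtain ⟨g, hg⟩ : ∃ g : Fin (Fintype.card K₀ + 1) → P, ∀ t t', (g t)⁻¹ * g t' ∈ N → t = t' := by
    refine ⟨fun t => (Infinite.natEmbedding (P ⧸ N) t.1).out, fun t t' h => ?_⟩
    have h1 := QuotientGroup.eq.2 h
    rw [QuotientGroup.out_eq', QuotientGroup.out_eq'] at h1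
    exact Fin.ext ((Infinite.natEmbedding (P ⧸ N)).injective h1)
  obtain ⟨K, hKd⟩ : ∃ K : Finset P, K = K₀ ∪ Finset.univ.image g ∪ {n₀, b x₁, b x₂} := ⟨_, rfl⟩
  have hK0 : ∀ y ∈ K₀, y ∈ K := fun y hy => by rw [hKd]; simp [hy]
  have hKg : ∀ t, g t ∈ K := fun t => by rw [hKd]; simp
  have hKn : n₀ ∈ K := by rw [hKd]; simp
  have hK1 : b x₁ ∈ K := by rw [hKd]; simp
  have hK2 : b x₂ ∈ K := by rw [hKd]; simp
  obtain ⟨Γ, hΓ⟩ : ∃ Γ : Subgroup P, Γ = Subgroup.closure (K : Set P) := ⟨_, rfl⟩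
  have hKΓ : ∀ y ∈ K, y ∈ Γ := fun y hy => by rw [hΓ]; exact Subgroup.subset_closure hy
  have hNΓ : N ≤ Γ := by
    rw [← hK₀, Subgroup.closure_le]
    exact fun y hy => hKΓ y (hK0 y hy)
  let σ : K × Bool → Γ := fun s => if s.2 then ⟨s.1.1, hKΓ _ s.1.2⟩ else ⟨s.1.1, hKΓ _ s.1.2⟩⁻¹
  have hσ : ∀ γ : Γ, ∃ L : List (K × Bool), (L.map σ).prod = γ := by
    rintro ⟨γ, hγ⟩
    have hγ' := hγ
    rw [hΓ] at hγ'
    suffices h : ∃ L : List (K × Bool), (((L.map σ).prod : Γ) : P) = γ by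
      obtain ⟨L, hL⟩ := h
      exact ⟨L, Subtype.ext hL⟩
    clear hγ
    induction hγ' using Subgroup.closure_induction with
    | mem x hx => exact ⟨[(⟨x, hx⟩, true)], by simp [σ]⟩
    | one => exact ⟨[], rfl⟩
    | mul x y _ _ hx hy =>
      obtain ⟨L, hL⟩ := hx
      obtain ⟨L', hL'⟩ := hy
      exact ⟨L ++ L', by rw [List.map_append, List.prod_append, Subgroup.coe_mul, hL, hL']⟩
    | inv x _ hx =>
      obtain ⟨L, hL⟩ := hx
      refine ⟨(L.map fun s => (s.1, !s.2)).reverse, ?_⟩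
      rw [← hL, ← Subgroup.coe_inv, List.prod_inv_reverse]
      congr 2
      rw [List.map_reverse, List.map_map, List.map_map]
      congr 1
      apply List.map_congr_left
      rintro ⟨s, ε⟩ _
      cases ε <;> simp [σ]
  let L : K₀ → List (K × Bool) := fun j => [(⟨j.1, hK0 _ j.2⟩, true)]
  have hLp : ∀ j, ((L j).map σ).prod = ⟨j.1, hKΓ _ (hK0 _ j.2)⟩ := fun j => by simp [L, σ]
  let L₀ : List (K × Bool) := [(⟨n₀, hKn⟩, true)]
  have hL₀p : (L₀.map σ).prod = ⟨n₀, hKΓ _ hKn⟩ := by simp [L₀, σ]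
  have hcl : Subgroup.closure (Set.range fun j => ((L j).map σ).prod) = N.subgroupOf Γ := by
    apply Subgroup.map_injective Γ.subtype_injective
    rw [MonoidHom.map_closure, Subgroup.subgroupOf_map_subtype, inf_eq_left.2 hNΓ]
    conv_rhs => rw [← hK₀]
    congr 1
    ext y
    simp only [Set.mem_image, Set.mem_range, exists_exists_eq_and, hLp]
    constructor
    · rintro ⟨a, rfl⟩
      exact a.2
    · intro hy
      exact ⟨⟨y, hy⟩, rfl⟩
  let s₁ : K × Bool := (⟨b x₁, hK1⟩, true)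
  let s₂ : K × Bool := (⟨b x₂, hK2⟩, true)
  have hs12 : s₁ ≠ s₂ := fun h => hbx (congrArg (fun s : K × Bool => s.1.1) h)
  have hvd : 1 ≤ vd (UU σ (MonoidHom.id Γ) {L₀}) := by
    apply hLIM Γ (K × Bool) σ L₀
    intro T
    have : Fact (Nat.Prime 2) := ⟨Nat.prime_two⟩
    obtain ⟨G, _, _, q, hG, hq⟩ := hRP P X hs hr 2 (T.map ⟨Subtype.val, Subtype.val_injective⟩)
    refine ⟨G, inferInstance, q.comp Γ.subtype, ?_, ?_⟩
    · intro a ha c hc hac
      apply Subtype.ext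
      exact hq (by simpa using ha) (by simpa using hc) hac
    · apply hFIN Γ G (K × Bool) σ (q.comp Γ.subtype) s₁ s₂ hs12 L₀
      intro e₁ e₂
      obtain ⟨c, hc, hc1, hc2⟩ := hDER P X b hb 2 G hG q x₁ x₂ hx e₁ e₂
      refine ⟨fun γ => c γ, fun g h x => hc g h x, ?_, ?_⟩
      · have : ((σ s₁ : Γ) : P) = b x₁ := by simp [σ, s₁]
        simp only [this, hc1]
      · have : ((σ s₂ : Γ) : P) = b x₂ := by simp [σ, s₂]
        simp only [this, hc2]
  obtain ⟨B, hB⟩ := hOP Γ (N.subgroupOf Γ) (K × Bool) K₀ σ (N.subgroupOf Γ).subtype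
    (Subgroup.subtype_injective _) L
  have hclo := hCLO Γ Γ (K × Bool) σ (MonoidHom.id Γ) {L₀}
  have key := hCMP Γ (N.subgroupOf Γ) (K × Bool) K₀ (N.subgroupOf Γ).subtype
    (Subgroup.subtype_injective _) (UU σ (MonoidHom.id Γ) {L₀}) hclo.1 hclo.2 B ?_ ?_
    (Fintype.card K₀ + 1) (fun t => ⟨g t, hKΓ _ (hKg t)⟩) ?_
  · have h0 : (0 : ℝ) ≤ Fintype.card K₀ := Nat.cast_nonneg _
    push_cast at key
    nlinarith
  · intro k f
    ext ⟨h, j⟩
    rw [hB, tr_apply, hB, DD_tr]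
    rfl
  · intro f hf hf0
    refine injc σ hσ (N.subgroupOf Γ) (conj_rel N Γ hNΓ hNc) L hcl L₀ ?_ ?_ f hf ?_
    · rw [hL₀p, Subgroup.mem_subgroupOf]
      exact hn₀
    · rw [hL₀p]
      intro h
      exact htf (MonoidHom.isOfFinOrder Γ.subtype h)
    · intro n j
      have h1 := hB f n j
      rw [hf0] at h1
      rw [← Subgroup.coe_subtype]
      exact h1.symm
  · intro t t' h hh
    apply hg
    have h1 : (g t) * (h : Γ) = g t' := congrArg Subtype.val hh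
    rw [← h1, inv_mul_cancel_left]
    exact h.2

end Pool.Agent.R684.PN
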