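import Pool.Agent.W649.ZL.Dim

set_option autoImplicit false

/-!
# Finitely generated normal subgroups of parafree groups: definitions
-/

namespace Pool.Agent.R684.PN

open Pool.Agent.W649.ZL

/-- `lc G n = γ_{n+1}(G)` -/
abbrev lc (G : Type) [Group G] (n : ℕ) : Subgroup G := (⊤ : Subgroup G).lowerCentralSeries n

/-- `P` has the same lower central quotients as the free group on `X` -/
def SameLCQ (P X : Type) [Group P] : Prop :=
  ∀ n : ℕ, Nonempty (P ⧸ lc P n ≃* FreeGroup X ⧸ lc (FreeGroup X) n)

/-- `P` is residually nilpotent -/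
def ResNil (P : Type) [Group P] : Prop := ∀ x : P, (∀ n : ℕ, x ∈ lc P n) → x = 1

/-- cocycles (derivations) on `Γ` with values in the functions on `G`, where `Γ` acts through
`q : Γ → G` and left translation -/
def Coc {Γ G : Type} [Group Γ] [Group G] (q : Γ →* G) (c : Γ → G → ℂ) : Prop :=
  ∀ (g h : Γ) (x : G), c (g * h) x = c g x + c h ((q g)⁻¹ * x)

section
variable {G S : Type} [Group G]

/-- the value at the word `s₁ ⋯ s_k` of the derivation with values `f (·, s)` at the `s`;
`τ s` is the element of `G` by which `s` acts -/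
def DD (τ : S → G) : List S → (G × S → ℂ) → G → ℂ
  | [], _, _ => 0
  | s :: L, f, x => f (x, s) + DD τ L f ((τ s)⁻¹ * x)

theorem DD_add (τ : S → G) (L : List S) (f g : G × S → ℂ) (x : G) :
    DD τ L (f + g) x = DD τ L f x + DD τ L g x := by
  induction L generalizing x with
  | nil => simp [DD]
  | cons s L ih => simp only [DD, ih, Pi.add_apply]; ring

theorem DD_smul (τ : S → G) (L : List S) (a : ℂ) (f : G × S → ℂ) (x : G) :
    DD τ L (a • f) x = a * DD τ L f x := by
  induction L generalizing x with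
  | nil => simp [DD]
  | cons s L ih => simp only [DD, ih, Pi.smul_apply, smul_eq_mul]; ring

theorem DD_zero (τ : S → G) (L : List S) (x : G) : DD τ L (0 : G × S → ℂ) x = 0 := by
  induction L generalizing x with
  | nil => simp [DD]
  | cons s L ih => simp [DD, ih]

/-- the `ℓ²` cocycles `f` (given by their values at the generators) on the group `Γ` with
generators `σ s`, acting through `q`, which vanish at the words in `A` -/
def UU {Γ : Type} [Group Γ] (σ : S → Γ) (q : Γ →* G) (A : Set (List S)) :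
    Submodule ℂ (EE G S) where
  carrier := {f | (∀ L L' : List S, (L.map σ).prod = (L'.map σ).prod →
      ∀ x, DD (fun s => q (σ s)) L f x = DD (fun s => q (σ s)) L' f x) ∧
      ∀ L ∈ A, ∀ x, DD (fun s => q (σ s)) L f x = 0}
  add_mem' := by
    rintro f g ⟨hf, hf'⟩ ⟨hg, hg'⟩
    refine ⟨fun L L' h x => ?_, fun L h x => ?_⟩
    · rw [lp.coeFn_add, DD_add, DD_add, hf L L' h, hg L L' h]
    · rw [lp.coeFn_add, DD_add, hf' L h, hg' L h, add_zero]
  zero_mem' := by
    refine ⟨fun L L' h x => ?_, fun L h x => ?_⟩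
    · rw [lp.coeFn_zero, DD_zero, DD_zero]
    · rw [lp.coeFn_zero, DD_zero]
  smul_mem' := by
    rintro a f ⟨hf, hf'⟩
    refine ⟨fun L L' h x => ?_, fun L h x => ?_⟩
    · rw [lp.coeFn_smul, DD_smul, DD_smul, hf L L' h]
    · rw [lp.coeFn_smul, DD_smul, hf' L h, mul_zero]

theorem mem_UU {Γ : Type} [Group Γ] (σ : S → Γ) (q : Γ →* G) (A : Set (List S)) (f : EE G S) :
    f ∈ UU σ q A ↔ (∀ L L' : List S, (L.map σ).prod = (L'.map σ).prod →
      ∀ x, DD (fun s => q (σ s)) L f x = DD (fun s => q (σ s)) L' f x) ∧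
      ∀ L ∈ A, ∀ x, DD (fun s => q (σ s)) L f x = 0 := Iff.rfl

end

end Pool.Agent.R684.PN
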