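import Pool.Agent.R684.PN.Stm

set_option autoImplicit false

open scoped InnerProductSpace InnerProduct ENNReal Topology

/-! LIM: passage to the limit of the von Neumann dimension. -/

namespace Pool.Agent.R684.PN

namespace LimAux

open Pool.Agent.W649.ZL Filter

set_option maxHeartbeats 400000

theorem DD_pull {Γ G S : Type} [Group Γ] [Group G] (q : Γ →* G) (σ : S → Γ) (f : G × S → ℂ)
    (L : List S) : ∀ γ : Γ, DD (fun s => (MonoidHom.id Γ) (σ s)) L (fun x => f (q x.1, x.2)) γ =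
      DD (fun s => q (σ s)) L f (q γ) := by
  induction L with
  | nil => intro γ; rfl
  | cons s L ih =>
    intro γ
    simp only [DD]
    rw [ih]
    simp [map_mul, map_inv]

theorem DD_tendsto {Γ S ι : Type} [Group Γ] (τ : S → Γ) (l : Filter ι) (v : ι → Γ × S → ℂ)
    (W : Γ × S → ℂ) (h : ∀ x, Tendsto (fun i => v i x) l (𝓝 (W x))) (L : List S) :
    ∀ γ : Γ, Tendsto (fun i => DD τ L (v i) γ) l (𝓝 (DD τ L W γ)) := by
  induction L with
  | nil => intro γ; exact tendsto_const_nhds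
  | cons s L ih =>
    intro γ
    simp only [DD]
    exact (h _).add (ih _)

/-- facts about the approximating projections -/
theorem approx {Γ S : Type} [Group Γ] [Fintype S] (σ : S → Γ) (L₀ : List S) (hclo : S_CLO)
    (T : Finset Γ) (G : Type) [Group G] (q : Γ →* G) (hq : Set.InjOn q T)
    (hvd : 1 ≤ vd (UU σ q {L₀})) :
    ∃ (v : S → Γ × S → ℂ) (n : S → ℝ), (∀ s x, ‖v s x‖ ≤ 1) ∧ (∀ s, v s (1, s) = (n s : ℂ)) ∧
      (∀ s, 0 ≤ n s ∧ n s ≤ 1) ∧ 1 ≤ ∑ s, n s ∧
      (∀ s (K : Finset (Γ × S)), (∀ x ∈ K, x.1 ∈ T) → ∑ x ∈ K, ‖v s x‖ ^ 2 ≤ n s) ∧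
      (∀ s (L L' : List S), (L.map σ).prod = (L'.map σ).prod → ∀ x,
        DD (fun s => (MonoidHom.id Γ) (σ s)) L (v s) x =
          DD (fun s => (MonoidHom.id Γ) (σ s)) L' (v s) x) ∧
      (∀ s x, DD (fun s => (MonoidHom.id Γ) (σ s)) L₀ (v s) x = 0) := by
  classical
  set U : Submodule ℂ (EE G S) := UU σ q {L₀} with hU
  have hcl : IsClosed (U : Set (EE G S)) := (hclo Γ G S σ q {L₀}).1
  have hcl' : U.topologicalClosure = U := topcl_eq hcl
  set w : S → EE G S := fun s => U.topologicalClosure.starProjection (dl ((1 : G), s)) with hw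
  have hwU : ∀ s, w s ∈ U := by
    intro s
    have := Submodule.starProjection_apply_mem U.topologicalClosure (dl ((1 : G), s))
    exact hcl'.le this
  have hw1 : ∀ s, ‖w s‖ ≤ 1 := by
    intro s
    refine (Submodule.norm_starProjection_apply_le _ _).trans ?_
    rw [norm_dl]
  have hws : ∀ s, w s (1, s) = ((‖w s‖ ^ 2 : ℝ) : ℂ) := by
    intro s
    rw [← inner_dl_left]
    have h1 : ⟪dl ((1 : G), s) - w s, w s⟫_ℂ = 0 :=
      Submodule.starProjection_inner_eq_zero _ _ (Submodule.starProjection_apply_mem _ _)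
    rw [inner_sub_left, sub_eq_zero] at h1
    rw [h1, inner_self_eq_norm_sq_to_K]
    norm_cast
  refine ⟨fun s x => w s (q x.1, x.2), fun s => ‖w s‖ ^ 2, ?_, ?_, ?_, ?_, ?_, ?_, ?_⟩
  · intro s x
    exact (lp.norm_apply_le_norm (by norm_num) (w s) _).trans (hw1 s)
  · intro s
    change w s (q 1, s) = _
    rw [map_one, hws]
  · intro s
    exact ⟨by positivity, by have := hw1 s; have h0 := norm_nonneg (w s); nlinarith⟩
  · exact hvd
  · intro s K hK
    have hinj : Set.InjOn (fun x : Γ × S => (q x.1, x.2)) K := by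
      rintro ⟨a, i⟩ ha ⟨b, j⟩ hb hab
      simp only [Prod.mk.injEq] at hab
      have := hq (hK _ ha) (hK _ hb) hab.1
      simp only at this
      rw [this, hab.2]
    have h1 := Finset.sum_image (f := fun y => ‖w s y‖ ^ 2) hinj
    change ∑ x ∈ K, ‖w s (q x.1, x.2)‖ ^ 2 ≤ ‖w s‖ ^ 2
    rw [← h1]
    have h2 := lp.sum_rpow_le_norm_rpow (p := 2) (by norm_num) (w s)
      (K.image fun x : Γ × S => (q x.1, x.2))
    simp only [ENNReal.toReal_ofNat, Real.rpow_ofNat] at h2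
    exact h2
  · intro s L L' hL x
    rw [DD_pull, DD_pull]
    exact ((mem_UU σ q {L₀} (w s)).1 (hwU s)).1 L L' hL _
  · intro s x
    rw [DD_pull]
    exact ((mem_UU σ q {L₀} (w s)).1 (hwU s)).2 L₀ rfl _

end LimAux

open LimAux Pool.Agent.W649.ZL Filter in
theorem t_LIM (h : S_CLO) : S_LIM := by
  classical
  intro Γ S _ _ σ L₀ hT
  have hA : ∀ T : Finset Γ, ∃ (v : S → Γ × S → ℂ) (n : S → ℝ), (∀ s x, ‖v s x‖ ≤ 1) ∧
      (∀ s, v s (1, s) = (n s : ℂ)) ∧ (∀ s, 0 ≤ n s ∧ n s ≤ 1) ∧ 1 ≤ ∑ s, n s ∧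
      (∀ s (K : Finset (Γ × S)), (∀ x ∈ K, x.1 ∈ T) → ∑ x ∈ K, ‖v s x‖ ^ 2 ≤ n s) ∧
      (∀ s (L L' : List S), (L.map σ).prod = (L'.map σ).prod → ∀ x,
        DD (fun s => (MonoidHom.id Γ) (σ s)) L (v s) x =
          DD (fun s => (MonoidHom.id Γ) (σ s)) L' (v s) x) ∧
      (∀ s x, DD (fun s => (MonoidHom.id Γ) (σ s)) L₀ (v s) x = 0) := by
    intro T
    obtain ⟨G, hG, q, hq, hvd⟩ := hT T
    exact approx σ L₀ h T G q hq hvd
  choose v n h1 h2 h3 h4 h5 h6 h7 using hA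
  let 𝒰 : Ultrafilter (Finset Γ) := Ultrafilter.of atTop
  have h𝒰 : (𝒰 : Filter (Finset Γ)) ≤ atTop := Ultrafilter.of_le atTop
  have hW : ∀ (s : S) (x : Γ × S), ∃ c : ℂ, Tendsto (fun T => v T s x) 𝒰 (𝓝 c) := by
    intro s x
    obtain ⟨c, -, hc⟩ := (isCompact_closedBall (0 : ℂ) 1).ultrafilter_le_nhds
      (𝒰.map fun T => v T s x) (by
        rw [Filter.le_principal_iff, Ultrafilter.mem_coe, Ultrafilter.mem_map]
        refine Filter.univ_mem' fun T => ?_
        simpa using h1 T s x)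
    exact ⟨c, hc⟩
  have hL : ∀ (s : S), ∃ c : ℝ, Tendsto (fun T => n T s) 𝒰 (𝓝 c) := by
    intro s
    obtain ⟨c, -, hc⟩ := (isCompact_Icc (a := (0 : ℝ)) (b := 1)).ultrafilter_le_nhds
      (𝒰.map fun T => n T s) (by
        rw [Filter.le_principal_iff, Ultrafilter.mem_coe, Ultrafilter.mem_map]
        refine Filter.univ_mem' fun T => ?_
        exact h3 T s)
    exact ⟨c, hc⟩
  choose W hW using hW
  choose l hl using hL
  have e2 : ∀ s, W s (1, s) = (l s : ℂ) := by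
    intro s
    refine tendsto_nhds_unique (hW s (1, s)) ?_
    have := (Complex.continuous_ofReal.tendsto (l s)).comp (hl s)
    refine this.congr fun T => ?_
    exact (h2 T s).symm
  have e4 : 1 ≤ ∑ s, l s := by
    have := tendsto_finsetSum (Finset.univ : Finset S) fun s _ => hl s
    exact ge_of_tendsto' this h4
  have e0 : ∀ s, 0 ≤ l s := fun s => ge_of_tendsto' (hl s) fun T => (h3 T s).1
  have e5 : ∀ s (K : Finset (Γ × S)), ∑ x ∈ K, ‖W s x‖ ^ 2 ≤ l s := by
    intro s K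
    have ht : Tendsto (fun T => ∑ x ∈ K, ‖v T s x‖ ^ 2) 𝒰 (𝓝 (∑ x ∈ K, ‖W s x‖ ^ 2)) :=
      tendsto_finsetSum K fun x _ => ((hW s x).norm).pow 2
    refine le_of_tendsto_of_tendsto ht (hl s) ?_
    have hev : ∀ᶠ T in atTop, K.image Prod.fst ≤ T := eventually_ge_atTop _
    filter_upwards [h𝒰 hev] with T hT'
    exact h5 T s K fun x hx => hT' (Finset.mem_image_of_mem _ hx)
  have hmem : ∀ s, Memℓp (W s) 2 := by
    intro s
    rw [memlp_two_iff]
    exact summable_of_sum_le (fun x => by positivity) (e5 s)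
  set U : Submodule ℂ (EE Γ S) := UU σ (MonoidHom.id Γ) {L₀} with hU
  have hcl : IsClosed (U : Set (EE Γ S)) := (h Γ Γ S σ (MonoidHom.id Γ) {L₀}).1
  have hcl' : U.topologicalClosure = U := topcl_eq hcl
  refine e4.trans ?_
  unfold vd
  refine Finset.sum_le_sum fun s _ => ?_
  set w : EE Γ S := ⟨W s, hmem s⟩ with hw
  have hwx : ∀ x, w x = W s x := fun x => rfl
  have hwU : w ∈ U := by
    rw [hU, mem_UU]
    refine ⟨fun L L' hLL x => ?_, fun L hLm x => ?_⟩
    · refine tendsto_nhds_unique (DD_tendsto _ (𝒰 : Filter (Finset Γ)) (fun T => v T s) (W s)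
        (hW s) L x) ?_
      refine (DD_tendsto _ (𝒰 : Filter (Finset Γ)) (fun T => v T s) (W s) (hW s) L' x).congr
        fun T => ?_
      exact (h6 T s L L' hLL x).symm
    · have hLe : L = L₀ := hLm
      subst hLe
      refine tendsto_nhds_unique (DD_tendsto _ (𝒰 : Filter (Finset Γ)) (fun T => v T s) (W s)
        (hW s) L x) ?_
      refine tendsto_const_nhds.congr fun T => ?_
      exact (h7 T s x).symm
  have hnw : ‖w‖ ^ 2 ≤ l s := by
    have hs := lp.norm_rpow_eq_tsum (p := 2) (by norm_num) w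
    simp only [ENNReal.toReal_ofNat, Real.rpow_ofNat] at hs
    rw [hs]
    exact Summable.tsum_le_of_sum_le ((memlp_two_iff _).1 (hmem s)) (e5 s)
  have hin : ⟪dl ((1 : Γ), s), w⟫_ℂ = (l s : ℂ) := by
    rw [inner_dl_left, hwx, e2]
  have hP : U.topologicalClosure.starProjection w = w :=
    Submodule.starProjection_eq_self_iff.2 (by rw [hcl']; exact hwU)
  have hin2 : ⟪U.topologicalClosure.starProjection (dl ((1 : Γ), s)), w⟫_ℂ = (l s : ℂ) := by
    have h0 : ⟪dl ((1 : Γ), s) - U.topologicalClosure.starProjection (dl ((1 : Γ), s)), w⟫_ℂ = 0 :=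
      Submodule.starProjection_inner_eq_zero _ _ (by rw [hcl']; exact hwU)
    rw [inner_sub_left, sub_eq_zero] at h0
    rw [← h0, hin]
  set p := U.topologicalClosure.starProjection (dl ((1 : Γ), s)) with hp
  have hle : l s ≤ ‖p‖ * ‖w‖ := by
    have := norm_inner_le_norm (𝕜 := ℂ) p w
    rw [hin2, Complex.norm_real, Real.norm_of_nonneg (e0 s)] at this
    exact this
  by_contra hcon
  push Not at hcon
  have a1 : 0 ≤ ‖p‖ := norm_nonneg p
  have a2 : 0 ≤ ‖w‖ := norm_nonneg w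
  have a3 := e0 s
  have a4 : l s ^ 2 ≤ ‖p‖ ^ 2 * ‖w‖ ^ 2 := by
    rw [← mul_pow]; exact pow_le_pow_left₀ a3 hle 2
  have a5 : 0 < l s := lt_of_le_of_lt (by positivity) hcon
  have a6 : ‖p‖ ^ 2 * ‖w‖ ^ 2 ≤ ‖p‖ ^ 2 * l s := by
    gcongr
  nlinarith

end Pool.Agent.R684.PN
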