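import Pool.Agent.R684.PN.Defs

set_option autoImplicit false

/-!
# Finitely generated normal subgroups of parafree groups: statements of the pieces
(complete proofs in NOTES.md)
-/

namespace Pool.Agent.R684.PN

open Pool.Agent.W649.ZL

/-- Free groups modulo a term of the lower central series are residually finite-`p`. -/
def S_RES : Prop := ∀ (X : Type) (p : ℕ) [Fact p.Prime] (n : ℕ) (x : FreeGroup X),
  x ∉ lc (FreeGroup X) n → ∃ (G : Type) (_ : Group G) (_ : Finite G) (f : FreeGroup X →* G),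
    IsPGroup p G ∧ (∀ y ∈ lc (FreeGroup X) n, f y = 1) ∧ f x ≠ 1

/-- Homomorphisms to nilpotent groups can be prescribed on a basis. -/
def S_PF : Prop := ∀ (P X : Type) [Group P], SameLCQ P X → ∃ b : X → P,
  ∀ (E : Type) [Group E] [Group.IsNilpotent E] (e : X → E), ∃! h : P →* E, ∀ x, h (b x) = e x

/-- Parafree groups are residually finite-`p`. -/
def S_RP : Prop := ∀ (P X : Type) [Group P], SameLCQ P X → ResNil P →
  ∀ (p : ℕ) [Fact p.Prime] (T : Finset P), ∃ (G : Type) (_ : Group G) (_ : Finite G) (q : P →* G),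
    IsPGroup p G ∧ Set.InjOn q T

/-- Derivations with values in `ℂ[G]`, `G` a finite `p`-group, can be prescribed at two elements
of the basis. -/
def S_DER : Prop := ∀ (P X : Type) [Group P] (b : X → P),
  (∀ (E : Type) [Group E] [Group.IsNilpotent E] (e : X → E), ∃! h : P →* E, ∀ x, h (b x) = e x) →
  ∀ (p : ℕ) [Fact p.Prime] (G : Type) [Group G] [Finite G], IsPGroup p G → ∀ (q : P →* G)
    (x₁ x₂ : X), x₁ ≠ x₂ → ∀ e₁ e₂ : G → ℂ, ∃ c : P → G → ℂ, Coc q c ∧
      c (b x₁) = e₁ ∧ c (b x₂) = e₂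

/-- The space of `ℓ²` cocycles is closed and invariant. -/
def S_CLO : Prop := ∀ (Γ G S : Type) [Group Γ] [Group G] [Fintype S] (σ : S → Γ) (q : Γ →* G)
  (A : Set (List S)), IsClosed (UU σ q A : Set (EE G S)) ∧ Pool.Agent.W649.ZL.Inv (UU σ q A)

/-- The maps `f ↦ DD L f` are given by bounded operators. -/
def S_OP : Prop := ∀ (G H S J : Type) [Group G] [Group H] [Fintype S] [Fintype J] (τ : S → G)
  (ι : H →* G), Function.Injective ι → ∀ (L : J → List S), ∃ B : EE G S →L[ℂ] EE H J,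
    ∀ (f : EE G S) (h : H) (j : J), B f (h, j) = DD τ (L j) f (ι h)

/-- Finite level: the dimension is at least one. -/
def S_FIN : Prop := ∀ (Γ G S : Type) [Group Γ] [Group G] [Finite G] [Fintype S] (σ : S → Γ)
  (q : Γ →* G) (s₁ s₂ : S), s₁ ≠ s₂ → ∀ L₀ : List S,
  (∀ e₁ e₂ : G → ℂ, ∃ c : Γ → G → ℂ, Coc q c ∧ c (σ s₁) = e₁ ∧ c (σ s₂) = e₂) →
  1 ≤ vd (UU σ q {L₀})

/-- Passage to the limit. -/
def S_LIM : Prop := ∀ (Γ S : Type) [Group Γ] [Fintype S] (σ : S → Γ) (L₀ : List S),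
  (∀ T : Finset Γ, ∃ (G : Type) (_ : Group G) (q : Γ →* G), Set.InjOn q T ∧
    1 ≤ vd (UU σ q {L₀})) → 1 ≤ vd (UU σ (MonoidHom.id Γ) {L₀})

/-- Comparison of dimensions for a subgroup. -/
def S_CMP : Prop := ∀ (Γ H S J : Type) [Group Γ] [Group H] [Fintype S] [Fintype J] (ι : H →* Γ),
  Function.Injective ι → ∀ (U : Submodule ℂ (EE Γ S)), IsClosed (U : Set (EE Γ S)) → Pool.Agent.W649.ZL.Inv U →
  ∀ (B : EE Γ S →L[ℂ] EE H J), (∀ (k : H) (f : EE Γ S), B (tr (ι k) f) = tr k (B f)) →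
  (∀ f ∈ U, B f = 0 → f = 0) → ∀ (m : ℕ) (g : Fin m → Γ),
  (∀ (t t' : Fin m) (h : H), g t * ι h = g t' → t = t') → (m : ℝ) * vd U ≤ Fintype.card J

/-- A cocycle is determined by the restrictions to `N` of its values at generators of `N`. -/
def S_INJ : Prop := ∀ (Γ S J : Type) [Group Γ] [Fintype S] (σ : S → Γ),
  (∀ g : Γ, ∃ L : List S, (L.map σ).prod = g) → ∀ (N : Subgroup Γ) [N.Normal] (L : J → List S),
  Subgroup.closure (Set.range fun j => ((L j).map σ).prod) = N → ∀ L₀ : List S,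
  (L₀.map σ).prod ∈ N → ¬ IsOfFinOrder (L₀.map σ).prod → ∀ f : EE Γ S,
  f ∈ UU σ (MonoidHom.id Γ) {L₀} → (∀ (n : N) (j : J), DD σ (L j) f (n : Γ) = 0) → f = 0

/-- Rank at most one. -/
def S_CYC : Prop := ∀ (P X : Type) [Group P], SameLCQ P X → ResNil P → Subsingleton X →
  ∀ N : Subgroup P, N ≠ ⊥ → N.index ≠ 0

/-- The theorem. -/
def S_MAIN : Prop := ∀ (P X : Type) [Group P], SameLCQ P X → ResNil P →
  ∀ (N : Subgroup P) [N.Normal], N ≠ ⊥ → N.index = 0 → ¬ N.FG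

end Pool.Agent.R684.PN
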